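import Pool.Agent.Run7.h630.QW.Iface
import Pool.Agent.Run7.h630.QF.R8
import Pool.Agent.Run7.h370.QF.R4

/-!
# The moments of the fields on the torus
-/

open MeasureTheory Matrix Filter Topology
open scoped Matrix.Norms.Frobenius ComplexConjugate

namespace Run7.h370.QW

open Run7.h4.YM Run7.h630.WL Run7.h630.MQ Run7.h630.QC Run7.h630.ML Run7.h630.QF Run7.h630.QW
open Run7.h370.MQ Run7.h370.QC Run7.h370.QF

variable {N n L l : ℕ}

theorem ng_ne [NeZero N] {α : Col N} (h : α ≠ (0, 0)) : ng α ≠ (0, 0) := by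
  intro h0
  apply h
  have key : ∀ a : Fin N, (N - (a : ℕ)) % N = 0 → a = 0 := by
    intro a ha
    by_contra hne
    have h1 : (a : ℕ) ≠ 0 := fun h => hne (Fin.ext h)
    have h2 := a.2
    rw [Nat.mod_eq_of_lt (by omega)] at ha
    omega
  have h1 := congrArg (fun p : Col N => (p.1 : ℕ)) h0
  have h2 := congrArg (fun p : Col N => (p.2 : ℕ)) h0
  simp only [ng] at h1 h2
  have e0 : (((0 : Fin N) : ℕ)) = 0 := rfl
  rw [e0] at h1 h2
  exact Prod.ext (key _ h1) (key _ h2)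

/-- the size of the variance -/
theorem cc_le [NeZero N] [NeZero n] [NeZero L] [NeZero l] {C5 : ℝ} {p5 : ℕ} (hC5 : 0 ≤ C5)
    {k : ℕ} (h5 : ∀ α : Col N, α ≠ (0, 0) →
      ∀ (f : Fin 4 → Fin 4 → Site n L l → ℂ) (M ε : ℝ), (∀ i j x, f j i x = -f i j x) →
      (∀ i j x, ‖f i j x‖ ≤ M) → (∀ i j m x, i ≠ j → j ≠ m → m ≠ i →
        ‖nb k α m (f i j) x + nb k α i (f j m) x + nb k α j (f m i) x‖ ≤ ε) →
      (∀ j x, ‖pot k α f j x‖ ≤ C5 * vol n L l ^ p5 * M))
    {χ : Col N → ℂ} (hχ : ∀ α, ‖χ α‖ = 1) {f : Col N → Fin 4 → Fin 4 → Site n L l → ℂ}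
    (hf : ∀ α i j x, f α j i x = -f α i j x) {M : ℝ} (hM0 : 0 ≤ M)
    (hM : ∀ α i j x, ‖f α i j x‖ ≤ M) :
    |cc χ k f| ≤ 64 * N ^ 3 * C5 * vol n L l ^ (p5 + 1) * M ^ 2 := by
  have hv := (vol_ge (n := n) (L := L) (l := l)).1
  have hN0 : (0 : ℝ) ≤ N := Nat.cast_nonneg _
  obtain ⟨B, hB⟩ : ∃ B : ℝ, B = C5 * vol n L l ^ p5 * M := ⟨_, rfl⟩
  have hB0 : 0 ≤ B := by
    rw [hB]
    positivity
  have h1 : ∀ α : Col N, α ≠ (0, 0) → ∀ i x, ‖po k f α i x‖ ≤ B := by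
    intro α hα i x
    rw [hB]
    refine h5 α hα (f α) M (6 * M) (hf α) (hM α) (fun i j m x _ _ _ => ?_) i x
    have g1 := nb_norm k α m (f α i j) (hM α i j) x
    have g2 := nb_norm k α i (f α j m) (hM α j m) x
    have g3 := nb_norm k α j (f α m i) (hM α m i) x
    refine (norm_add_le _ _).trans ?_
    have g4 := norm_add_le (nb k α m (f α i j) x) (nb k α i (f α j m) x)
    linarith
  have h2 := prg_le k f (po k f) hM0 hB0 hM fun α hα i x => h1 α (Finset.ne_of_mem_erase hα) i x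
  have h3 := prg_le k f (tw0 χ (po k f)) (B := N * B) hM0 (by positivity) hM fun α hα i x => by
    rw [tw0, norm_mul, RCLike.norm_conj, norm_mul, hχ, mul_one, Complex.norm_natCast]
    exact mul_le_mul_of_nonneg_left (h1 _ (ng_ne (Finset.ne_of_mem_erase hα)) i x) hN0
  unfold cc
  refine (abs_sub _ _).trans ?_
  rw [abs_mul, abs_mul, abs_of_nonneg (by positivity : (0 : ℝ) ≤ N / 2),
    abs_of_nonneg (by norm_num : (0 : ℝ) ≤ 1 / 2)]
  have h4 := mul_le_mul_of_nonneg_left h2 (by positivity : (0 : ℝ) ≤ N / 2)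
  have h5' := mul_le_mul_of_nonneg_left h3 (by norm_num : (0 : ℝ) ≤ 1 / 2)
  refine (add_le_add h4 h5').trans (le_of_eq ?_)
  rw [hB]
  ring

/-- the third moment of the energy, summed over the window -/
theorem mom_le (hR6 : S_R6) {k : ℕ} [NeZero N] [MeasurableSpace (SU N)] [BorelSpace (SU N)]
    (μ : Measure (SU N)) [IsProbabilityMeasure μ] [μ.IsHaarMeasure] {C12 : ℝ} (hC12 : 0 < C12)
    (h12 : ∀ (m m' l : ℕ) [NeZero m] [NeZero m'] [NeZero (2 * m)] [NeZero (2 * m')]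
      [NeZero l] (β : ℝ), 1 ≤ β →
      ∑ q : ZMod (2 * m) × ZMod (2 * m') → ZMod N,
        ∫ U, (β * Sq k q U) ^ 3 * Real.exp (-(β * Sq k q U))
          ∂(Measure.pi fun _ : Link (2 * m) (2 * m') l => μ) ≤
        C12 * (vol (2 * m) (2 * m') l * (1 + Real.log β)) ^ 3 * Zs μ (2 * m) (2 * m') l k β)
    {m l R : ℕ} [NeZero m] [NeZero (2 * m)] [NeZero l] (hR : 2 * R + 2 ≤ 2 * m) {β : ℝ}
    (hβ : 1 ≤ β) {Z : ℝ} (hZ : Z = Sw N (2 * m) (2 * m) R (fun q => ∫ U,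
      Real.exp (-(β * Sq k q U)) ∂(Measure.pi fun _ : Link (2 * m) (2 * m) l => μ))) :
    Sw N (2 * m) (2 * m) R (fun q => ∫ U, (1 + (β * Sq k q U) ^ 3) *
      Real.exp (-(β * Sq k q U)) ∂(Measure.pi fun _ : Link (2 * m) (2 * m) l => μ)) ≤
      (1 + C12) * 2197 * vol (2 * m) (2 * m) l ^ 3 * β ^ (1 / 4 : ℝ) * Z := by
  have hS' : ∀ q : ZMod (2 * m) × ZMod (2 * m) → ZMod N,
      Continuous fun U : Link (2 * m) (2 * m) l → SU N => Sq k q U := fun q => cont_Sq k q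
  have hW : ∀ q : ZMod (2 * m) × ZMod (2 * m) → ZMod N,
      Continuous fun U : Link (2 * m) (2 * m) l → SU N => Real.exp (-(β * Sq k q U)) := fun q =>
    Real.continuous_exp.comp ((continuous_const.mul (hS' q)).neg)
  set V := vol (2 * m) (2 * m) l with hV
  have hV1 : 1 ≤ V := Run7.h370.QC.vol_ge.1
  have hZ0 : 0 ≤ Z := by
    rw [hZ]
    exact Sw_nonneg fun q => integral_nonneg fun U => (Real.exp_pos _).le
  have hmom : Sw N (2 * m) (2 * m) R (fun q => ∫ U, (1 + (β * Sq k q U) ^ 3) *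
      Real.exp (-(β * Sq k q U)) ∂(Measure.pi fun _ : Link (2 * m) (2 * m) l => μ)) ≤
      (1 + C12 * (V * (1 + Real.log β)) ^ 3) * Z := by
    have g1 := hR6 N (2 * m) (2 * m) l k μ R hR hR
      (fun s => (1 + (β * s) ^ 3) * Real.exp (-(β * s))) (by fun_prop)
    have g2 := hR6 N (2 * m) (2 * m) l k μ R hR hR (fun s => Real.exp (-(β * s))) (by fun_prop)
    rw [← hZ] at g2
    have g3 := h12 m m l β hβ
    have hN : (0 : ℝ) < (N : ℝ) ^ ((2 * R + 1) ^ 2) := by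
      have : (0 : ℝ) < N := by exact_mod_cast Nat.pos_of_neZero N
      positivity
    refine le_of_mul_le_mul_left ?_ hN
    rw [g1]
    have g4 : ∀ q : ZMod (2 * m) × ZMod (2 * m) → ZMod N,
        ∫ U, (1 + (β * Sq k q U) ^ 3) * Real.exp (-(β * Sq k q U))
          ∂(Measure.pi fun _ : Link (2 * m) (2 * m) l => μ) =
        ∫ U, Real.exp (-(β * Sq k q U)) ∂(Measure.pi fun _ : Link (2 * m) (2 * m) l => μ) +
        ∫ U, (β * Sq k q U) ^ 3 * Real.exp (-(β * Sq k q U))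
          ∂(Measure.pi fun _ : Link (2 * m) (2 * m) l => μ) := by
      intro q
      have i1 : Integrable (fun U : Link (2 * m) (2 * m) l → SU N =>
          Real.exp (-(β * Sq k q U))) (Measure.pi fun _ : Link (2 * m) (2 * m) l => μ) :=
        Run7.h863.MQ.intg _ (hW q)
      have i2 : Integrable (fun U : Link (2 * m) (2 * m) l → SU N =>
          (β * Sq k q U) ^ 3 * Real.exp (-(β * Sq k q U)))
          (Measure.pi fun _ : Link (2 * m) (2 * m) l => μ) :=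
        Run7.h863.MQ.intg _ (((continuous_const.mul (hS' q)).pow 3).mul (hW q))
      rw [← integral_add i1 i2]
      refine integral_congr_ae (Eventually.of_forall fun U => ?_)
      simp only
      ring
    simp only [g4]
    rw [Finset.sum_add_distrib]
    have g5 : (N : ℝ) ^ ((2 * R + 1) ^ 2) * ((1 + C12 * (V * (1 + Real.log β)) ^ 3) * Z) =
        (1 + C12 * (V * (1 + Real.log β)) ^ 3) * ∑ q : ZMod (2 * m) × ZMod (2 * m) → ZMod N,
          ∫ U, Real.exp (-(β * Sq k q U))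
            ∂(Measure.pi fun _ : Link (2 * m) (2 * m) l => μ) := by
      rw [← g2]
      ring
    rw [g5, add_mul, one_mul]
    exact add_le_add le_rfl g3
  have hlog := Run7.h115.QC.log_bound hβ
  have hq1 : 1 ≤ β ^ (1 / 4 : ℝ) := Real.one_le_rpow hβ (by norm_num)
  have g1 : 1 + C12 * (V * (1 + Real.log β)) ^ 3 ≤ (1 + C12) * 2197 * V ^ 3 * β ^ (1 / 4 : ℝ) := by
    have h3 : (V * (1 + Real.log β)) ^ 3 ≤ 2197 * V ^ 3 * β ^ (1 / 4 : ℝ) := by
      rw [mul_pow]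
      calc V ^ 3 * (1 + Real.log β) ^ 3 ≤ V ^ 3 * (2197 * β ^ (1 / 4 : ℝ)) :=
            mul_le_mul_of_nonneg_left hlog (by positivity)
        _ = _ := by ring
    have h4 : 1 ≤ 2197 * V ^ 3 * β ^ (1 / 4 : ℝ) := by
      have h6 : 1 ≤ V ^ 3 := one_le_pow₀ hV1
      nlinarith
    have h5 := mul_le_mul_of_nonneg_left h3 hC12.le
    nlinarith
  exact hmom.trans (mul_le_mul_of_nonneg_right g1 hZ0)

/-- **W4** -/
theorem t_W4 : S_W3 → S_Q5b → S_R6 → S_Q12 → S_W4 := by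
  intro hW3 hQ5b hR6 hQ12 N k _ hk χ hχ _ _ μ _ _
  obtain ⟨C3, p3, hC3, h3⟩ := hW3 N k hk χ hχ
  obtain ⟨C5, p5, hC5, h5⟩ := hQ5b N
  obtain ⟨C12, hC12, h12⟩ := hQ12 N k hk μ
  have hN : (0 : ℝ) < N := by exact_mod_cast Nat.pos_of_neZero N
  obtain ⟨K, hK⟩ : ∃ K : ℝ, K = 64 * N ^ 3 * C5 := ⟨_, rfl⟩
  have hK0 : 0 < K := by
    rw [hK]
    positivity
  refine ⟨C3 * ((1 + C12) * 2197) * (1 + 3 * K), p3 + 3 + (p5 + 1), by positivity, ?_⟩
  intro m l R _ _ _ hR f hf M hM β hβ Z hZ E hE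
  have hM0 : 0 ≤ M := (norm_nonneg _).trans (hM (0, 0) 0 0 0)
  have hcc : |cc χ k f| ≤ K * vol (2 * m) (2 * m) l ^ (p5 + 1) * M ^ 2 := by
    rw [hK]
    exact cc_le hC5.le (fun α hα g M ε h1 h2 h4 => (h5 (2 * m) (2 * m) l k hk α hα g M ε h1 h2
      h4).1) hχ.1 hf hM0 hM
  have hS' : ∀ q : ZMod (2 * m) × ZMod (2 * m) → ZMod N,
      Continuous fun U : Link (2 * m) (2 * m) l → SU N => Sq k q U := fun q => cont_Sq k q
  have hP : ∀ q : ZMod (2 * m) × ZMod (2 * m) → ZMod N,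
      Continuous fun U : Link (2 * m) (2 * m) l → SU N => Ph k q f U := fun q => cont_Ph k q f
  have hW : ∀ q : ZMod (2 * m) × ZMod (2 * m) → ZMod N,
      Continuous fun U : Link (2 * m) (2 * m) l → SU N => Real.exp (-(β * Sq k q U)) := fun q =>
    Real.continuous_exp.comp ((continuous_const.mul (hS' q)).neg)
  have hmom := mom_le hR6 μ hC12 h12 hR hβ hZ
  set V := vol (2 * m) (2 * m) l with hV
  have hV1 : 1 ≤ V := Run7.h370.QC.vol_ge.1
  set W := Sw N (2 * m) (2 * m) R (fun q => ∫ U, (1 + (β * Sq k q U) ^ 3) *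
      Real.exp (-(β * Sq k q U)) ∂(Measure.pi fun _ : Link (2 * m) (2 * m) l => μ)) with hWd
  have hZ0 : 0 ≤ Z := by
    rw [hZ]
    exact Sw_nonneg fun q => integral_nonneg fun U => (Real.exp_pos _).le
  have hb0 : 0 < β := by linarith
  have hsb : 0 < Real.sqrt β := Real.sqrt_pos.2 hb0
  obtain ⟨D, hD⟩ : ∃ D : ℝ, D = C3 * V ^ p3 * (1 + M) ^ 8 / Real.sqrt β := ⟨_, rfl⟩
  have hD0 : 0 ≤ D := by
    rw [hD]
    positivity
  have hb : β ^ (1 / 4 : ℝ) / Real.sqrt β = β ^ (-(1 / 4) : ℝ) := by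
    rw [Real.sqrt_eq_rpow, ← Real.rpow_sub hb0]
    norm_num
  have hDW : D * W ≤ C3 * ((1 + C12) * 2197) * V ^ (p3 + 3) * (1 + M) ^ 8 *
      β ^ (-(1 / 4) : ℝ) * Z := by
    calc D * W ≤ D * ((1 + C12) * 2197 * V ^ 3 * β ^ (1 / 4 : ℝ) * Z) :=
          mul_le_mul_of_nonneg_left hmom hD0
      _ = C3 * ((1 + C12) * 2197) * (V ^ p3 * V ^ 3) * (1 + M) ^ 8 *
          (β ^ (1 / 4 : ℝ) / Real.sqrt β) * Z := by
        rw [hD]
        ring
      _ = _ := by rw [hb, pow_add]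
  have heq := fun (q : ZMod (2 * m) × ZMod (2 * m) → ZMod N) =>
    h3 (2 * m) (2 * m) l μ q f hf M hM β hβ _ rfl
  have hsum : ∀ G : (ZMod (2 * m) × ZMod (2 * m) → ZMod N) → ℝ,
      (∀ q, |G q| ≤ D * ∫ U, (1 + (β * Sq k q U) ^ 3) * Real.exp (-(β * Sq k q U))
        ∂(Measure.pi fun _ : Link (2 * m) (2 * m) l => μ)) →
      |Sw N (2 * m) (2 * m) R G| ≤ D * W := by
    intro G hG
    refine (Sw_abs G).trans ((Sw_le hG).trans (le_of_eq ?_))
    rw [Sw_mul]
  set A2 := Sw N (2 * m) (2 * m) R (fun q => ∫ U, β * Ph k q f U ^ 2 * Real.exp (-(β * Sq k q U))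
    ∂(Measure.pi fun _ : Link (2 * m) (2 * m) l => μ)) with hA2
  set A4 := Sw N (2 * m) (2 * m) R (fun q => ∫ U, β ^ 2 * Ph k q f U ^ 4 *
    Real.exp (-(β * Sq k q U)) ∂(Measure.pi fun _ : Link (2 * m) (2 * m) l => μ)) with hA4
  have h2 : |A2 - cc χ k f * Z| ≤ D * W := by
    have e : A2 - cc χ k f * Z = Sw N (2 * m) (2 * m) R (fun q =>
        ∫ U, (β * Ph k q f U ^ 2 - cc χ k f) * Real.exp (-(β * Sq k q U))
          ∂(Measure.pi fun _ : Link (2 * m) (2 * m) l => μ)) := by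
      rw [hA2, hZ]
      unfold Sw
      rw [Finset.mul_sum, ← Finset.sum_sub_distrib]
      refine Finset.sum_congr rfl fun q _ => ?_
      have i1 : Integrable (fun U : Link (2 * m) (2 * m) l → SU N =>
          β * Ph k q f U ^ 2 * Real.exp (-(β * Sq k q U)))
          (Measure.pi fun _ : Link (2 * m) (2 * m) l => μ) :=
        Run7.h863.MQ.intg _ ((continuous_const.mul ((hP q).pow 2)).mul (hW q))
      have i2 : Integrable (fun U : Link (2 * m) (2 * m) l → SU N =>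
          cc χ k f * Real.exp (-(β * Sq k q U)))
          (Measure.pi fun _ : Link (2 * m) (2 * m) l => μ) :=
        Run7.h863.MQ.intg _ (continuous_const.mul (hW q))
      rw [← integral_const_mul, ← integral_sub i1 i2]
      refine integral_congr_ae (Eventually.of_forall fun U => ?_)
      simp only
      ring
    rw [e]
    refine hsum _ fun q => ?_
    have := (heq q).1
    rw [← hD] at this
    exact this
  have h4 : |A4 - 3 * cc χ k f * A2| ≤ D * W := by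
    have e : A4 - 3 * cc χ k f * A2 = Sw N (2 * m) (2 * m) R (fun q =>
        ∫ U, (β ^ 2 * Ph k q f U ^ 4 - 3 * cc χ k f * (β * Ph k q f U ^ 2)) *
          Real.exp (-(β * Sq k q U))
          ∂(Measure.pi fun _ : Link (2 * m) (2 * m) l => μ)) := by
      rw [hA4, hA2]
      unfold Sw
      rw [Finset.mul_sum, ← Finset.sum_sub_distrib]
      refine Finset.sum_congr rfl fun q _ => ?_
      have i1 : Integrable (fun U : Link (2 * m) (2 * m) l → SU N =>
          β ^ 2 * Ph k q f U ^ 4 * Real.exp (-(β * Sq k q U)))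
          (Measure.pi fun _ : Link (2 * m) (2 * m) l => μ) :=
        Run7.h863.MQ.intg _ ((continuous_const.mul ((hP q).pow 4)).mul (hW q))
      have i2 : Integrable (fun U : Link (2 * m) (2 * m) l → SU N =>
          3 * cc χ k f * (β * Ph k q f U ^ 2 * Real.exp (-(β * Sq k q U))))
          (Measure.pi fun _ : Link (2 * m) (2 * m) l => μ) :=
        Run7.h863.MQ.intg _ (continuous_const.mul
          ((continuous_const.mul ((hP q).pow 2)).mul (hW q)))
      rw [← integral_const_mul, ← integral_sub i1 i2]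
      refine integral_congr_ae (Eventually.of_forall fun U => ?_)
      simp only
      ring
    rw [e]
    refine hsum _ fun q => ?_
    have := (heq q).2
    rw [← hD] at this
    exact this
  -- the bounds
  have hx : (1 : ℝ) ≤ (1 + M) ^ 4 := one_le_pow₀ (by linarith)
  have hx2 : M ^ 2 ≤ (1 + M) ^ 4 := by
    have h1 : M ^ 2 ≤ (1 + M) ^ 2 := pow_le_pow_left₀ hM0 (by linarith) 2
    exact h1.trans (pow_le_pow_right₀ (by linarith) (by norm_num))
  have hVp : 1 ≤ V ^ (p5 + 1) := one_le_pow₀ hV1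
  have hDW0 : 0 ≤ D * W := (abs_nonneg _).trans h2
  have hfac : 1 + 3 * |cc χ k f| ≤ (1 + 3 * K) * V ^ (p5 + 1) * (1 + M) ^ 4 := by
    have h6 : |cc χ k f| ≤ K * V ^ (p5 + 1) * (1 + M) ^ 4 :=
      hcc.trans (mul_le_mul_of_nonneg_left hx2 (by positivity))
    have h7 : 1 ≤ V ^ (p5 + 1) * (1 + M) ^ 4 := one_le_mul_of_one_le_of_one_le hVp hx
    calc 1 + 3 * |cc χ k f| ≤ V ^ (p5 + 1) * (1 + M) ^ 4 + 3 * (K * V ^ (p5 + 1) * (1 + M) ^ 4) :=
          add_le_add h7 (mul_le_mul_of_nonneg_left h6 (by norm_num))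
      _ = _ := by ring
  have hfin : (1 + 3 * |cc χ k f|) * (D * W) ≤ E := by
    calc (1 + 3 * |cc χ k f|) * (D * W) ≤ ((1 + 3 * K) * V ^ (p5 + 1) * (1 + M) ^ 4) *
          (C3 * ((1 + C12) * 2197) * V ^ (p3 + 3) * (1 + M) ^ 8 * β ^ (-(1 / 4) : ℝ) * Z) :=
          mul_le_mul hfac hDW hDW0 (by positivity)
      _ = C3 * ((1 + C12) * 2197) * (1 + 3 * K) * (V ^ (p3 + 3) * V ^ (p5 + 1)) *
          ((1 + M) ^ 4 * (1 + M) ^ 8) * β ^ (-(1 / 4) : ℝ) * Z := by ring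
      _ = E := by
        rw [hE, ← pow_add, ← pow_add]
  have hcc0 : 0 ≤ |cc χ k f| := abs_nonneg _
  refine ⟨h2.trans (le_trans ?_ hfin), ?_⟩
  · nlinarith
  · have e : A4 - 3 * cc χ k f ^ 2 * Z =
        (A4 - 3 * cc χ k f * A2) + 3 * cc χ k f * (A2 - cc χ k f * Z) := by ring
    rw [e]
    refine (abs_add_le _ _).trans (le_trans ?_ hfin)
    rw [abs_mul, abs_mul, abs_of_nonneg (by norm_num : (0 : ℝ) ≤ 3)]
    have h6 := mul_le_mul_of_nonneg_left h2 (by positivity : 0 ≤ 3 * |cc χ k f|)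
    linarith

end Run7.h370.QW
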