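import Pool.Agent.Run7.h630.QW.Iface
import Pool.Agent.Run7.h370.QC.Q7

/-!
# The local energy in terms of the fields
-/

open MeasureTheory Matrix Filter Topology
open scoped Matrix.Norms.Frobenius ComplexConjugate

namespace Run7.h370.QW

open Run7.h4.YM Run7.h630.MQ Run7.h630.QC Run7.h630.QF Run7.h630.QW Run7.h370.MQ Run7.h370.QC

variable {N n L l : ℕ}

/-- `β s³ ≤ 4 (1 + (β S)²) / √β` if `s² = 2 S` -/
theorem cube_le {β s S : ℝ} (hβ : 1 ≤ β) (hs : 0 ≤ s) (h : s ^ 2 = 2 * S) :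
    β * s ^ 3 ≤ 4 * (1 + (β * S) ^ 2) / Real.sqrt β := by
  have hb : 0 < Real.sqrt β := Real.sqrt_pos.2 (by linarith)
  have hb2 : Real.sqrt β ^ 2 = β := Real.sq_sqrt (by linarith)
  rw [le_div_iff₀ hb]
  set r : ℝ := Real.sqrt β * s with hr
  have hr0 : 0 ≤ r := mul_nonneg hb.le hs
  have e1 : β * s ^ 3 * Real.sqrt β = r ^ 3 := by
    rw [hr, mul_pow]
    calc β * s ^ 3 * Real.sqrt β = (Real.sqrt β ^ 2) * s ^ 3 * Real.sqrt β := by rw [hb2]
      _ = _ := by ring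
  have e2 : β * S = r ^ 2 / 2 := by
    rw [hr, mul_pow, hb2, h]
    ring
  rw [e1, e2]
  have h3 : r ^ 3 ≤ 1 + r ^ 4 := by
    rcases le_total r 1 with h1 | h1
    · have : r ^ 3 ≤ 1 := pow_le_one₀ hr0 h1
      have : 0 ≤ r ^ 4 := by positivity
      linarith
    · have : r ^ 3 ≤ r ^ 4 := pow_le_pow_right₀ h1 (by norm_num)
      linarith
  nlinarith [h3]

/-- **W5b** -/
theorem t_W5b : S_Q3 → S_Q3b → S_W5b := by
  intro hQ3 hQ3b N _
  obtain ⟨C3, p3, hC3, h3⟩ := hQ3 N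
  obtain ⟨C3b, hC3b, h3b⟩ := hQ3b N
  have hN : (0 : ℝ) < N := by exact_mod_cast Nat.pos_of_neZero N
  have hN1 : (1 : ℝ) ≤ N := by exact_mod_cast Nat.pos_of_neZero N
  refine ⟨4 * (C3 + N * C3b), p3, by positivity, ?_⟩
  intro n L l k _ _ _ hk q U x i j hij β hβ
  have hVV := vol_ge (n := n) (L := L) (l := l)
  have hl0 : (0 : ℝ) ≤ l := Nat.cast_nonneg _
  have hb : 0 < Real.sqrt β := Real.sqrt_pos.2 (by linarith)
  have h := col_sum hC3b.le k q U (fun x M => h3 n L l k hk q U x M) h3b x hij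
  have hps : ∀ α : Col N, ‖ps k q α U i j x‖ = ‖ph2 k q α U i j x‖ := fun α => by
    rw [ps, if_pos hij, RCLike.norm_conj]
  simp only [hps] at h
  have hF := Fc_sq k q U x i j
  have hFs := Fc_le k q U x i j
  set s := ss k q U with hs
  have hs0 : 0 ≤ s := ss_nonneg k q U
  have hs2 : s ^ 2 = 2 * Sq k q U := ss_sq' k q U
  set A : ℝ := ∑ α ∈ CN N, ‖ph2 k q α U i j x‖ ^ 2 with hA
  have hA' : ∑ α ∈ Cz N, ‖ph2 k q α U i j x‖ ^ 2 = A := rfl
  rw [hA']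
  have hc := cube_le hβ hs0 hs2
  -- the bound
  have hlp : (l : ℝ) ^ p3 ≤ vol n L l ^ p3 := pow_le_pow_left₀ hl0 hVV.2 _
  have hV1 : 1 ≤ vol n L l ^ p3 := one_le_pow₀ hVV.1
  have hK : C3 * l ^ p3 + N * C3b ≤ (C3 + N * C3b) * vol n L l ^ p3 := by
    have h1 := mul_le_mul_of_nonneg_left hlp hC3.le
    have h2 : 0 ≤ N * C3b := by positivity
    nlinarith
  have hK0 : 0 ≤ C3 * l ^ p3 + N * C3b := by positivity
  have h4 : |A - N * ‖Fc k q U x i j‖ ^ 2| ≤ (C3 * l ^ p3 + N * C3b) * s ^ 3 := by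
    refine h.trans ?_
    have : ‖Fc k q U x i j‖ ^ 2 ≤ s ^ 2 := pow_le_pow_left₀ (norm_nonneg _) hFs 2
    calc (C3 * l ^ p3 + N * C3b) * s * ‖Fc k q U x i j‖ ^ 2 ≤
          (C3 * l ^ p3 + N * C3b) * s * s ^ 2 :=
          mul_le_mul_of_nonneg_left this (mul_nonneg hK0 hs0)
      _ = _ := by ring
  have e1 : β * ((N : ℝ) - (zz N k q x i j * trace (plaq U x i j).1).re) - β / (2 * N) * A =
      -(β / (2 * N)) * (A - N * ‖Fc k q U x i j‖ ^ 2) := by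
    rw [hF]
    field_simp
    ring
  rw [e1, abs_mul, abs_neg, abs_of_nonneg (by positivity : 0 ≤ β / (2 * N))]
  have hy : 0 ≤ 1 + (β * Sq k q U) ^ 2 := by positivity
  calc β / (2 * N) * |A - N * ‖Fc k q U x i j‖ ^ 2| ≤
        β / (2 * N) * ((C3 * l ^ p3 + N * C3b) * s ^ 3) :=
        mul_le_mul_of_nonneg_left h4 (by positivity)
    _ ≤ β * ((C3 * l ^ p3 + N * C3b) * s ^ 3) :=
        mul_le_mul_of_nonneg_right (div_le_self (by linarith) (by linarith)) (by positivity)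
    _ = (C3 * l ^ p3 + N * C3b) * (β * s ^ 3) := by ring
    _ ≤ (C3 * l ^ p3 + N * C3b) * (4 * (1 + (β * Sq k q U) ^ 2) / Real.sqrt β) :=
        mul_le_mul_of_nonneg_left hc hK0
    _ ≤ ((C3 + N * C3b) * vol n L l ^ p3) * (4 * (1 + (β * Sq k q U) ^ 2) / Real.sqrt β) :=
        mul_le_mul_of_nonneg_right hK (by positivity)
    _ = _ := by ring

end Run7.h370.QW
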